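import Pool.Agent.H29.RQ.Targets
import Pool.Agent.H67.RDD.LA

set_option autoImplicit false

/-!
# (PRX) the roots of two monic polynomials which are close coefficient by coefficient
-/

namespace Pool.Agent.H29.RQ

open Pool.Agent.H23.RDD Pool.Agent.H24.RD NumberField Height Finset Polynomial

theorem sum_bound {M : Type} [Field M] (w : AbsoluteValue M ℝ) (hw : IsNonarchimedean w)
    {ι : Type} (s : Finset ι) (f : ι → M) (B : ℝ) (hB : 0 ≤ B) (h : ∀ i ∈ s, w (f i) ≤ B) :
    w (∑ i ∈ s, f i) ≤ B := by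
  refine Finset.sum_induction _ (fun x => w x ≤ B)
    (fun a b ha hb => (hw a b).trans (max_le ha hb)) ?_ h
  rw [map_zero]
  exact hB

theorem pf_PRX : T_PRX := by
  classical
  intro M _ w hw ε he0 he1 s s' hco g z hz
  set f : M[X] := ∏ x ∈ s, (X - C x) with hf
  set f1 : M[X] := ∏ y ∈ s', (X - C y) with hf1
  have hfz : f.eval z = 0 := by
    rw [hf, eval_prod]
    exact Finset.prod_eq_zero hz (by simp)
  have hB0 : 0 ≤ ∏ y ∈ s', max (w z) (w y) :=
    Finset.prod_nonneg fun y _ => (w.nonneg z).trans (le_max_left _ _)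
  have hle : ∀ k, w (f.coeff k) ≤ w (f1.coeff k) := by
    intro k
    have h1 : w (f.coeff k) ≤ max (w (f1.coeff k)) (w (f1.coeff k - f.coeff k)) := by
      have h2 := hw (f1.coeff k) (-(f1.coeff k - f.coeff k))
      rw [AbsoluteValue.map_neg] at h2
      have h3 : f1.coeff k + -(f1.coeff k - f.coeff k) = f.coeff k := by ring
      rwa [h3] at h2
    rcases le_max_iff.mp h1 with h2 | h2
    · exact h2
    · have h3 := h2.trans (hco k)
      have h4 := w.nonneg (f.coeff k)
      have h5 := w.nonneg (f1.coeff k)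
      nlinarith
  have h1 : w (f1.eval z) ≤ ε * ∏ y ∈ s', max (w z) (w y) := by
    have h2 : f1.eval z = (f1 - f).eval z := by rw [eval_sub, hfz, sub_zero]
    rw [h2, eval_eq_sum_range]
    refine sum_bound w hw _ _ _ (mul_nonneg he0.le hB0) ?_
    intro k _
    rw [map_mul, map_pow, coeff_sub]
    have hzk : 0 ≤ w z ^ k := pow_nonneg (w.nonneg z) k
    have h3 : w (f1.coeff k) * w z ^ k ≤ ∏ y ∈ s', max (w z) (w y) :=
      Pool.Agent.H67.RDD.coeff_bd w hw (fun y : M => y) z s' k
    calc w (f1.coeff k - f.coeff k) * w z ^ k ≤ (ε * w (f.coeff k)) * w z ^ k :=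
          mul_le_mul_of_nonneg_right (hco k) hzk
      _ ≤ (ε * w (f1.coeff k)) * w z ^ k :=
          mul_le_mul_of_nonneg_right (mul_le_mul_of_nonneg_left (hle k) he0.le) hzk
      _ = ε * (w (f1.coeff k) * w z ^ k) := by ring
      _ ≤ ε * ∏ y ∈ s', max (w z) (w y) := mul_le_mul_of_nonneg_left h3 he0.le
  have h2 : w (f1.eval z) = ∏ y ∈ s', w (z - y) := by
    rw [hf1, eval_prod, map_prod]
    simp
  rw [h2] at h1
  have hg0 := w.nonneg g
  have h3 : ∏ y ∈ s', w (z * g - y * g) ≤ ε * ∏ y ∈ s', (max (w (z * g)) 1 * max (w (y * g)) 1) := by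
    have h4 : ∏ y ∈ s', w (z * g - y * g) = (∏ y ∈ s', w (z - y)) * w g ^ s'.card := by
      rw [← Finset.prod_const, ← Finset.prod_mul_distrib]
      refine Finset.prod_congr rfl fun y _ => ?_
      rw [← sub_mul, map_mul]
    have h5 : (∏ y ∈ s', max (w z) (w y)) * w g ^ s'.card ≤
        ∏ y ∈ s', (max (w (z * g)) 1 * max (w (y * g)) 1) := by
      rw [← Finset.prod_const, ← Finset.prod_mul_distrib]
      refine Finset.prod_le_prod (fun y _ => mul_nonneg
        ((w.nonneg z).trans (le_max_left _ _)) hg0) fun y _ => ?_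
      rw [max_mul_of_nonneg _ _ hg0, ← map_mul, ← map_mul]
      have h6 : (1 : ℝ) ≤ max (w (z * g)) 1 := le_max_right _ _
      have h7 : (1 : ℝ) ≤ max (w (y * g)) 1 := le_max_right _ _
      refine max_le ?_ ?_
      · calc w (z * g) ≤ max (w (z * g)) 1 := le_max_left _ _
          _ = max (w (z * g)) 1 * 1 := (mul_one _).symm
          _ ≤ _ := mul_le_mul_of_nonneg_left h7 (zero_le_one.trans h6)
      · calc w (y * g) ≤ max (w (y * g)) 1 := le_max_left _ _
          _ = 1 * max (w (y * g)) 1 := (one_mul _).symm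
          _ ≤ _ := mul_le_mul_of_nonneg_right h6 (zero_le_one.trans h7)
    rw [h4]
    calc (∏ y ∈ s', w (z - y)) * w g ^ s'.card
        ≤ (ε * ∏ y ∈ s', max (w z) (w y)) * w g ^ s'.card :=
          mul_le_mul_of_nonneg_right h1 (pow_nonneg hg0 _)
      _ = ε * ((∏ y ∈ s', max (w z) (w y)) * w g ^ s'.card) := by ring
      _ ≤ _ := mul_le_mul_of_nonneg_left h5 he0.le
  have hpos : 0 < ∏ y ∈ s', (max (w (z * g)) 1 * max (w (y * g)) 1) :=
    Finset.prod_pos fun y _ => mul_pos (zero_lt_one.trans_le (le_max_right _ _))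
      (zero_lt_one.trans_le (le_max_right _ _))
  calc ∏ y ∈ s', dch w (z * g) (y * g)
      = (∏ y ∈ s', w (z * g - y * g)) / ∏ y ∈ s', (max (w (z * g)) 1 * max (w (y * g)) 1) := by
        unfold dch
        rw [Finset.prod_div_distrib]
    _ ≤ ε := by
        rw [div_le_iff₀ hpos]
        exact h3

end Pool.Agent.H29.RQ
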