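import Pool.Agent.H29.RQ.Targets
import Pool.Agent.H29.RQ.PRX

set_option autoImplicit false

/-!
# (PRF) the roots of a polynomial and of its image under a Frobenius substitution
-/

namespace Pool.Agent.H29.RQ

open Pool.Agent.H23.RDD Pool.Agent.H24.RD NumberField Height Finset Polynomial

theorem fresh {R : Type} [CommRing R] {p : ℕ} (hp : p.Prime) (c : ℕ) {ι : Type} (S : Finset ι)
    (m : ι → R) : ∃ r : R, (∑ i ∈ S, m i) ^ (p ^ c) = ∑ i ∈ S, m i ^ (p ^ c) + p * r := by
  classical
  induction S using Finset.induction_on with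
  | empty =>
    refine ⟨0, ?_⟩
    rw [Finset.sum_empty, Finset.sum_empty, zero_pow (pow_ne_zero _ hp.ne_zero)]
    ring
  | insert a S ha ih =>
    obtain ⟨r, hr⟩ := ih
    obtain ⟨r', hr'⟩ := exists_add_pow_prime_pow_eq hp (m a) (∑ i ∈ S, m i) c
    refine ⟨r + m a * (∑ i ∈ S, m i) * r', ?_⟩
    rw [Finset.sum_insert ha, Finset.sum_insert ha, hr', hr]
    ring

/-- the valuation ring -/
def valR {M : Type} [Field M] (w : AbsoluteValue M ℝ) (hw : IsNonarchimedean w) : Subring M where
  carrier := {x | w x ≤ 1}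
  mul_mem' := by
    intro a b ha hb
    have ha' : w a ≤ 1 := ha
    have hb' : w b ≤ 1 := hb
    show w (a * b) ≤ 1
    rw [map_mul]
    exact mul_le_one₀ ha' (w.nonneg b) hb'
  one_mem' := by
    show w 1 ≤ 1
    rw [map_one]
  add_mem' := by
    intro a b ha hb
    exact (hw a b).trans (max_le ha hb)
  zero_mem' := by
    show w 0 ≤ 1
    rw [map_zero]
    exact zero_le_one
  neg_mem' := by
    intro a ha
    show w (-a) ≤ 1
    rw [AbsoluteValue.map_neg]
    exact ha

theorem fresh_bound {M : Type} [Field M] (w : AbsoluteValue M ℝ) (hw : IsNonarchimedean w)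
    {p : ℕ} (hp : p.Prime) (c : ℕ) {ι : Type} (S : Finset ι) (m : ι → M)
    (hm : ∀ i ∈ S, w (m i) ≤ 1) (h0 : ∑ i ∈ S, m i = 0) :
    w (∑ i ∈ S, m i ^ (p ^ c)) ≤ w (p : M) := by
  classical
  set m' : ι → valR w hw := fun i => if h : w (m i) ≤ 1 then ⟨m i, h⟩ else 0 with hm'
  have h1 : ∀ i ∈ S, ((m' i : valR w hw) : M) = m i := by
    intro i hi
    rw [hm']
    simp only
    rw [dif_pos (hm i hi)]
  obtain ⟨r, hr⟩ := fresh hp c S m'
  have h2 : ((∑ i ∈ S, m' i : valR w hw) : M) = 0 := by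
    rw [AddSubmonoidClass.coe_finsetSum, Finset.sum_congr rfl h1, h0]
  have h3 := congrArg (fun x : valR w hw => (x : M)) hr
  simp only [SubmonoidClass.coe_pow, h2, Subring.coe_add, Subring.coe_mul,
    AddSubmonoidClass.coe_finsetSum, SubringClass.coe_natCast] at h3
  rw [zero_pow (pow_ne_zero _ hp.ne_zero)] at h3
  have h4 : ∑ i ∈ S, m i ^ (p ^ c) = -((p : M) * (r : M)) := by
    have h5 : ∑ i ∈ S, ((m' i : M)) ^ (p ^ c) = ∑ i ∈ S, m i ^ (p ^ c) :=
      Finset.sum_congr rfl fun i hi => by rw [h1 i hi]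
    rw [h5] at h3
    linear_combination -h3
  rw [h4, AbsoluteValue.map_neg, map_mul]
  have h5 : w (r : M) ≤ 1 := r.2
  calc w (p : M) * w (r : M) ≤ w (p : M) * 1 := mul_le_mul_of_nonneg_left h5 (w.nonneg _)
    _ = w (p : M) := mul_one _

theorem pf_PRF : T_PRF := by
  classical
  intro E M _ _ _ w hw p c hp ε he0 he1 hpε φ hφ hφc f s s' hfs hfs' z hz
  set Q : ℕ := p ^ c with hQ
  have hAinj : Function.Injective (algebraMap E M) := (algebraMap E M).injective
  have hφinj : Function.Injective (φ : E →+* E) := (φ : E →+* E).injective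
  set n : ℕ := s.card with hn
  have hmon : ∀ t : Finset M, (∏ x ∈ t, (X - C x)).Monic :=
    fun t => monic_prod_of_monic _ _ fun x _ => monic_X_sub_C x
  have hdeg : ∀ t : Finset M, (∏ x ∈ t, (X - C x)).natDegree = t.card := by
    intro t
    rw [natDegree_prod_of_monic _ _ fun x _ => monic_X_sub_C x]
    simp
  have hfn : f.natDegree = n := by
    rw [← natDegree_map_eq_of_injective hAinj, hfs, hdeg]
  have hcard' : s'.card = n := by
    rw [← hdeg s', ← hfs', natDegree_map_eq_of_injective hAinj,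
      natDegree_map_eq_of_injective hφinj, hfn]
  have hlead : algebraMap E M (f.coeff n) = 1 := by
    rw [← coeff_map, hfs, hn, ← hdeg s]
    exact (hmon s).coeff_natDegree
  -- the largest coefficient
  obtain ⟨k0, hk0, hmax⟩ := Finset.exists_max_image (range (n + 1))
    (fun k => w (algebraMap E M (f.coeff k))) ⟨n, Finset.mem_range.mpr (Nat.lt_succ_self n)⟩
  have hk0pos : 1 ≤ w (algebraMap E M (f.coeff k0)) := by
    have h := hmax n (Finset.mem_range.mpr (Nat.lt_succ_self n))
    rw [hlead, map_one] at h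
    exact h
  have hc0 : f.coeff k0 ≠ 0 := by
    intro h
    rw [h, map_zero, map_zero] at hk0pos
    linarith
  set u : E := (f.coeff k0)⁻¹ with hu
  have hu0 : u ≠ 0 := inv_ne_zero hc0
  set a : ℕ → E := fun k => u * f.coeff k with ha
  have hau : ∀ k ∈ range (n + 1), w (algebraMap E M (a k)) ≤ 1 := by
    intro k hk
    rw [ha]
    simp only
    rw [map_mul, map_mul, hu, map_inv₀, map_inv₀, inv_mul_le_iff₀ (zero_lt_one.trans_le hk0pos),
      mul_one]
    exact hmax k hk
  -- the normalisation at `z`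
  have ht : ∃ t : M, t ≠ 0 ∧ w t ≤ (max (w z) 1) ^ n ∧ ∀ k ∈ range (n + 1), w (z ^ k / t) ≤ 1 := by
    rcases le_or_gt (w z) 1 with h | h
    · refine ⟨1, one_ne_zero, ?_, ?_⟩
      · rw [map_one]
        exact one_le_pow₀ (le_max_right _ _)
      · intro k _
        rw [div_one, map_pow]
        exact pow_le_one₀ (w.nonneg z) h
    · have hz0 : z ≠ 0 := by
        intro h0
        rw [h0, map_zero] at h
        linarith
      refine ⟨z ^ n, pow_ne_zero n hz0, ?_, ?_⟩
      · rw [map_pow]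
        exact pow_le_pow_left₀ (w.nonneg z) (le_max_left _ _) n
      · intro k hk
        rw [map_div₀, map_pow, map_pow, div_le_one (pow_pos (w.pos hz0) n)]
        exact pow_le_pow_right₀ h.le (Nat.lt_succ_iff.mp (Finset.mem_range.mp hk))
  obtain ⟨t, ht0, htle, htk⟩ := ht
  -- `P(z) = 0`
  have hPz : ∑ k ∈ range (n + 1), algebraMap E M (a k) * (z ^ k / t) = 0 := by
    have h1 : ∑ k ∈ range (n + 1), algebraMap E M (f.coeff k) * z ^ k = 0 := by
      have h2 : (f.map (algebraMap E M)).eval z = 0 := by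
        rw [hfs, eval_prod]
        exact Finset.prod_eq_zero hz (by simp)
      rw [eval_map, eval₂_eq_sum_range, hfn] at h2
      exact h2
    have h3 : ∑ k ∈ range (n + 1), algebraMap E M (a k) * (z ^ k / t) =
        algebraMap E M u / t * ∑ k ∈ range (n + 1), algebraMap E M (f.coeff k) * z ^ k := by
      rw [Finset.mul_sum]
      refine Finset.sum_congr rfl fun k _ => ?_
      rw [ha]
      simp only
      rw [map_mul]
      ring
    rw [h3, h1, mul_zero]
  have hfr : w (∑ k ∈ range (n + 1), (algebraMap E M (a k) * (z ^ k / t)) ^ Q) ≤ ε := by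
    refine (fresh_bound w hw hp c (range (n + 1)) _ ?_ hPz).trans hpε
    intro k hk
    rw [map_mul]
    exact mul_le_one₀ (hau k hk) (w.nonneg _) (htk k hk)
  have hdiff : w (∑ k ∈ range (n + 1), algebraMap E M (φ (a k)) * (z ^ k / t) ^ Q) ≤ ε := by
    have h1 : ∑ k ∈ range (n + 1), algebraMap E M (φ (a k)) * (z ^ k / t) ^ Q =
        ∑ k ∈ range (n + 1), (algebraMap E M (a k) * (z ^ k / t)) ^ Q +
        ∑ k ∈ range (n + 1), algebraMap E M (φ (a k) - (a k) ^ Q) * (z ^ k / t) ^ Q := by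
      rw [← Finset.sum_add_distrib]
      refine Finset.sum_congr rfl fun k _ => ?_
      rw [map_sub, map_pow, mul_pow]
      ring
    rw [h1]
    refine (hw _ _).trans (max_le hfr ?_)
    refine sum_bound w hw _ _ _ he0.le ?_
    intro k hk
    rw [map_mul, map_pow]
    calc w (algebraMap E M (φ (a k) - (a k) ^ Q)) * w (z ^ k / t) ^ Q
        ≤ ε * 1 := mul_le_mul (hφc (a k) (hau k hk))
          (pow_le_one₀ (w.nonneg _) (htk k hk)) (pow_nonneg (w.nonneg _) _) he0.le
      _ = ε := mul_one ε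
  -- the value of the image polynomial
  have hval : (∑ k ∈ range (n + 1), algebraMap E M (φ (a k)) * (z ^ k / t) ^ Q) * t ^ Q =
      algebraMap E M (φ u) * ∏ y ∈ s', (z ^ Q - y) := by
    have h1 : ((f.map (φ : E →+* E)).map (algebraMap E M)).eval (z ^ Q) =
        ∏ y ∈ s', (z ^ Q - y) := by
      rw [hfs', eval_prod]
      simp
    rw [← h1, eval_map, eval₂_eq_sum_range, natDegree_map_eq_of_injective hφinj, hfn,
      Finset.mul_sum, Finset.sum_mul]
    refine Finset.sum_congr rfl fun k _ => ?_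
    rw [ha]
    simp only
    rw [coeff_map, map_mul, map_mul, div_pow, RingHom.coe_coe]
    have h2 : t ^ Q ≠ 0 := pow_ne_zero _ ht0
    rw [mul_assoc, div_mul_cancel₀ _ h2]
    ring
  have hbound : w (algebraMap E M (φ u)) * ∏ y ∈ s', w (z ^ Q - y) ≤
      ε * (max (w z) 1 ^ n) ^ Q := by
    have h1 := congrArg (fun x => w x) hval
    simp only [map_mul, map_pow, map_prod] at h1
    rw [← h1]
    refine mul_le_mul hdiff (pow_le_pow_left₀ (w.nonneg t) htle Q) (pow_nonneg (w.nonneg _) _)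
      he0.le
  -- Gauss
  have hgauss : 1 ≤ w (algebraMap E M (φ u)) * ∏ y ∈ s', max (w y) 1 := by
    have h1 := Pool.Agent.H67.RDD.coeff_bd w hw (fun y : M => y) 1 s' k0
    rw [map_one, one_pow, mul_one] at h1
    have h2 : (∏ j ∈ s', (X - C j)).coeff k0 = algebraMap E M (φ (f.coeff k0)) := by
      rw [← hfs', coeff_map, coeff_map, RingHom.coe_coe]
    rw [h2] at h1
    have h3 : w (algebraMap E M (φ u)) * w (algebraMap E M (φ (f.coeff k0))) = 1 := by
      rw [← map_mul, ← map_mul, ← map_mul, hu, inv_mul_cancel₀ hc0, map_one, map_one, map_one]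
    calc (1 : ℝ) = w (algebraMap E M (φ u)) * w (algebraMap E M (φ (f.coeff k0))) := h3.symm
      _ ≤ w (algebraMap E M (φ u)) * ∏ y ∈ s', max 1 (w y) :=
        mul_le_mul_of_nonneg_left h1 (w.nonneg _)
      _ = _ := by simp only [max_comm]
  have hupos : 0 < w (algebraMap E M (φ u)) := w.pos (by
    intro h
    have h1 : φ u = 0 := hAinj (by rw [h, map_zero])
    exact hu0 (by simpa using h1))
  have hmQ : max (w (z ^ Q)) 1 = max (w z) 1 ^ Q := by
    rw [map_pow]
    rcases le_or_gt (w z) 1 with h | h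
    · rw [max_eq_right h, one_pow, max_eq_right (pow_le_one₀ (w.nonneg z) h)]
    · rw [max_eq_left h.le, max_eq_left (one_le_pow₀ h.le)]
  have hyp : 0 < ∏ y ∈ s', max (w y) 1 :=
    Finset.prod_pos fun y _ => zero_lt_one.trans_le (le_max_right _ _)
  have hzp : 0 < max (w z) 1 := zero_lt_one.trans_le (le_max_right _ _)
  have hD : ∏ y ∈ s', (max (w (z ^ Q)) 1 * max (w y) 1) =
      (max (w z) 1 ^ n) ^ Q * ∏ y ∈ s', max (w y) 1 := by
    rw [Finset.prod_mul_distrib, Finset.prod_const, hmQ, hcard', ← pow_mul, ← pow_mul,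
      mul_comm Q n]
  have hDpos : 0 < (max (w z) 1 ^ n) ^ Q * ∏ y ∈ s', max (w y) 1 := by positivity
  calc ∏ y ∈ s', dch w (z ^ Q) y
      = (∏ y ∈ s', w (z ^ Q - y)) / ∏ y ∈ s', (max (w (z ^ Q)) 1 * max (w y) 1) := by
        unfold dch
        rw [Finset.prod_div_distrib]
    _ ≤ ε := by
        rw [hD, div_le_iff₀ hDpos]
        have h1 : 0 ≤ ∏ y ∈ s', w (z ^ Q - y) := Finset.prod_nonneg fun y _ => w.nonneg _
        calc ∏ y ∈ s', w (z ^ Q - y) = 1 * ∏ y ∈ s', w (z ^ Q - y) := (one_mul _).symm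
          _ ≤ (w (algebraMap E M (φ u)) * ∏ y ∈ s', max (w y) 1) * ∏ y ∈ s', w (z ^ Q - y) :=
            mul_le_mul_of_nonneg_right hgauss h1
          _ = (w (algebraMap E M (φ u)) * ∏ y ∈ s', w (z ^ Q - y)) * ∏ y ∈ s', max (w y) 1 := by
            ring
          _ ≤ (ε * (max (w z) 1 ^ n) ^ Q) * ∏ y ∈ s', max (w y) 1 :=
            mul_le_mul_of_nonneg_right hbound hyp.le
          _ = _ := by ring

end Pool.Agent.H29.RQ
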