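import Pool.Agent.H29.RQ.Targets

set_option autoImplicit false

/-!
# (REDQ) a power of a number is reduced, with as few conjugates as possible
-/

namespace Pool.Agent.H29.RQ

open Pool.Agent.H23.RDD Pool.Agent.H24.RD NumberField Height Finset Polynomial

theorem pf_REDQ (h1 : T_LVB) (_h2 : T_MON) : T_REDQ := by
  classical
  intro F Ω _ _ _ _ _ _ _ r γ hγ N K d hN hK hd β hβ hC
  obtain ⟨s, hs, hsC⟩ := hC
  have hK0 : 0 < K := Nat.pos_of_dvd_of_pos hK hN
  have hex : ∀ x : Ω, ∃ k : ℕ, 0 < k ∧ ((∃ l : ℕ, 0 < l ∧ x ^ l = β ^ l) → x ^ k = β ^ k) := by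
    intro x
    by_cases h : ∃ l : ℕ, 0 < l ∧ x ^ l = β ^ l
    · obtain ⟨l, hl, hx⟩ := h
      exact ⟨l, hl, fun _ => hx⟩
    · exact ⟨1, one_pos, fun h' => absurd h' h⟩
  choose o ho hox using hex
  have hP : 0 < ∏ x ∈ s, o x := Finset.prod_pos fun x _ => ho x
  have hN1 : 0 < N * ∏ x ∈ s, o x := Nat.mul_pos hN hP
  have hle : Lv F Ω γ N K ≤ Lv F Ω γ (N * ∏ x ∈ s, o x) K :=
    (h1 F Ω r γ hγ N K hN hK0).2.2.2.2.2 _ _ (Dvd.intro _ rfl) dvd_rfl
      (hK.trans (Dvd.intro _ rfl)) hN1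
  set N₁ : ℕ := N * ∏ x ∈ s, o x with hN₁
  set E : IntermediateField F Ω := Lv F Ω γ N₁ K with hE
  have hsE : ∀ σ : Ω ≃ₐ[F] Ω, (∀ z ∈ E, σ z = z) → σ β ∈ s :=
    fun σ hσ => hsC σ fun z hz => hσ z (hle hz)
  -- the orbit over the large level field
  set X : Finset Ω := s.filter fun x => ∃ σ : Ω ≃ₐ[F] Ω, (∀ z ∈ E, σ z = z) ∧ σ β = x with hX
  have hXm : ∀ σ : Ω ≃ₐ[F] Ω, (∀ z ∈ E, σ z = z) → σ β ∈ X := by
    intro σ hσ
    rw [hX, Finset.mem_filter]
    exact ⟨hsE σ hσ, σ, hσ, rfl⟩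
  have hXs : ∀ x ∈ X, ∃ σ : Ω ≃ₐ[F] Ω, (∀ z ∈ E, σ z = z) ∧ σ β = x := by
    intro x hx
    rw [hX, Finset.mem_filter] at hx
    exact hx.2
  have hX0 : ∀ x ∈ X, x ≠ 0 := by
    intro x hx
    obtain ⟨σ, -, rfl⟩ := hXs x hx
    exact (map_ne_zero σ).mpr hβ
  have hβX : β ∈ X := by
    have h := hXm AlgEquiv.refl (fun z _ => rfl)
    simpa using h
  set T : Finset Ω := X.filter fun x => ∃ l : ℕ, 0 < l ∧ x ^ l = β ^ l with hT
  have hTX : ∀ x ∈ T, x ∈ X := fun x hx => (Finset.mem_filter.mp hx).1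
  have hTl : ∀ x ∈ T, ∃ l : ℕ, 0 < l ∧ x ^ l = β ^ l := fun x hx => (Finset.mem_filter.mp hx).2
  have hβT : β ∈ T := Finset.mem_filter.mpr ⟨hβX, 1, one_pos, rfl⟩
  -- the ratios are in `E`
  have hρE : ∀ x ∈ T, x / β ∈ E := by
    intro x hx
    have hxs : x ∈ s := (Finset.mem_filter.mp (hTX x hx)).1
    have hroot : x ^ (o x) = β ^ (o x) := hox x (hTl x hx)
    have h2 : (x / β) ^ (o x) = 1 := by
      rw [div_pow, hroot, div_self (pow_ne_zero _ hβ)]
    refine IntermediateField.subset_adjoin _ _ (Or.inl ?_)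
    obtain ⟨c, hc⟩ : o x ∣ N₁ := (Finset.dvd_prod_of_mem o hxs).trans (Dvd.intro_left _ rfl)
    rw [hc, pow_mul, h2, one_pow]
  -- `T` acts on `X`
  have hact : ∀ x ∈ T, ∀ y ∈ X, x / β * y ∈ X := by
    intro x hx y hy
    obtain ⟨σ, hσ, hσy⟩ := hXs y hy
    obtain ⟨τ, hτ, hτx⟩ := hXs x (hTX x hx)
    have h2 : σ (τ β) = x / β * y := by
      rw [hτx]
      have h3 : x = x / β * β := by rw [div_mul_cancel₀ _ hβ]
      conv_lhs => rw [h3]
      rw [map_mul, hσ _ (hρE x hx), hσy]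
    have h3 : (τ.trans σ) β ∈ X := hXm (τ.trans σ) fun z hz => by
      rw [AlgEquiv.trans_apply, hτ z hz, hσ z hz]
    rw [AlgEquiv.trans_apply, h2] at h3
    exact h3
  have hactT : ∀ x ∈ T, ∀ y ∈ T, x / β * y ∈ T := by
    intro x hx y hy
    obtain ⟨l, hl, hxl⟩ := hTl x hx
    obtain ⟨l', hl', hyl⟩ := hTl y hy
    refine Finset.mem_filter.mpr ⟨hact x hx y (hTX y hy), l * l', Nat.mul_pos hl hl', ?_⟩
    have h2 : (x / β) ^ (l * l') = 1 := by
      rw [pow_mul, div_pow, hxl, div_self (pow_ne_zero _ hβ), one_pow]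
    rw [mul_pow, h2, one_mul, mul_comm l l', pow_mul, hyl, ← pow_mul]
  have hinj : ∀ x ∈ T, ∀ y y' : Ω, x / β * y = x / β * y' → y = y' := by
    intro x hx y y' h
    have h2 : x / β ≠ 0 := div_ne_zero (hX0 x (hTX x hx)) hβ
    exact mul_left_cancel₀ h2 h
  set a : ℕ := T.card with ha
  have ha0 : 0 < a := Finset.card_pos.mpr ⟨β, hβT⟩
  -- the exponent of the group of ratios
  have hexp : ∀ x ∈ T, (x / β) ^ a = 1 := by
    intro x hx
    have himg : T.image (fun y => x / β * y) = T := by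
      refine Finset.eq_of_subset_of_card_le ?_ ?_
      · intro w hw
        obtain ⟨y, hy, rfl⟩ := Finset.mem_image.mp hw
        exact hactT x hx y hy
      · rw [Finset.card_image_of_injective]
        intro y y' h
        exact hinj x hx y y' h
    have hprod : ∏ y ∈ T, (x / β * y) = ∏ y ∈ T, y := by
      conv_rhs => rw [← himg]
      rw [Finset.prod_image]
      intro y _ y' _ h
      exact hinj x hx y y' h
    rw [Finset.prod_mul_distrib, Finset.prod_const] at hprod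
    have h0 : ∏ y ∈ T, y ≠ 0 := Finset.prod_ne_zero_iff.mpr fun y hy => hX0 y (hTX y hy)
    have h2 : (x / β) ^ T.card * ∏ y ∈ T, y = 1 * ∏ y ∈ T, y := by
      rw [hprod, one_mul]
    exact mul_right_cancel₀ h0 h2
  set Y : Finset Ω := X.image fun x => x ^ a with hY
  have hcard : a * Y.card ≤ X.card := by
    rw [Finset.card_eq_sum_card_image (fun x => x ^ a) X, ← hY, mul_comm]
    have h2 : ∀ w ∈ Y, a ≤ (X.filter fun x => x ^ a = w).card := by
      intro w hw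
      obtain ⟨y, hy, rfl⟩ := Finset.mem_image.mp hw
      have hsub : T.image (fun x => x / β * y) ⊆ X.filter fun x => x ^ a = y ^ a := by
        intro z hz
        obtain ⟨x, hx, rfl⟩ := Finset.mem_image.mp hz
        refine Finset.mem_filter.mpr ⟨hact x hx y hy, ?_⟩
        rw [mul_pow, hexp x hx, one_mul]
      have hc : (T.image (fun x => x / β * y)).card = a := by
        rw [Finset.card_image_of_injective]
        intro x x' h
        have h3 : x / β = x' / β := mul_right_cancel₀ (hX0 y hy) h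
        have h4 : x / β * β = x' / β * β := by rw [h3]
        rwa [div_mul_cancel₀ _ hβ, div_mul_cancel₀ _ hβ] at h4
      calc a = (T.image (fun x => x / β * y)).card := hc.symm
        _ ≤ _ := Finset.card_le_card hsub
    calc Y.card * a = ∑ _w ∈ Y, a := by rw [Finset.sum_const, smul_eq_mul]
      _ ≤ _ := Finset.sum_le_sum h2
  refine ⟨N₁, a, Y.card, hN1, hK.trans (Dvd.intro _ rfl), ha0, ?_, ?_, ?_, ?_⟩
  · exact Finset.card_pos.mpr ⟨β ^ a, Finset.mem_image_of_mem _ hβX⟩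
  · exact hcard.trans ((Finset.card_filter_le _ _).trans hs)
  · refine ⟨Y, le_rfl, ?_⟩
    intro σ hσ
    rw [map_pow]
    exact Finset.mem_image_of_mem _ (hXm σ hσ)
  · intro σ hσ k hk hpow
    have hσT : σ β ∈ T := by
      refine Finset.mem_filter.mpr ⟨hXm σ hσ, a * k, Nat.mul_pos ha0 hk, ?_⟩
      rw [map_pow] at hpow
      rw [pow_mul, pow_mul, hpow]
    have h2 := hexp (σ β) hσT
    rw [map_pow]
    rw [div_pow, div_eq_one_iff_eq (pow_ne_zero _ hβ)] at h2
    exact h2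

end Pool.Agent.H29.RQ
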