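import Pool.Agent.H23.RDD.Targets

set_option autoImplicit false

/-!
# MP_c65535_nt, dependence on the degree: definitions and targets

The lower bound `c / D ^ (r + 1 + ε)` for the height of `β γ`, `β` of degree `D` over the field
generated by the roots of unity and by the radicals of a group of rank `r` at finitely many primes,
`γ` in the division group.
-/

namespace Pool.Agent.H29.RQ

open NumberField Height Finset Polynomial Pool.Agent.H24.RD Pool.Agent.H23.RDD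

/-- The chordal distance at `v`. -/
noncomputable def dch {M : Type} [Field M] (v : AbsoluteValue M ℝ) (x y : M) : ℝ :=
  v (x - y) / (max (v x) 1 * max (v y) 1)

/-- The automorphisms which fix the `N`-th roots of unity. -/
def UU (F M : Type) [Field F] [Field M] [Algebra F M] (N : ℕ) : Subgroup (M ≃ₐ[F] M) where
  carrier := {t | ∀ y : M, y ^ N = 1 → t y = y}
  mul_mem' := by
    intro s t hs ht y hy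
    rw [AlgEquiv.mul_apply, ht y hy, hs y hy]
  one_mem' := by
    intro y _
    rfl
  inv_mem' := by
    intro t ht y hy
    have h := ht y hy
    calc t⁻¹ y = t⁻¹ (t y) := by rw [h]
      _ = y := by
        rw [← AlgEquiv.mul_apply, inv_mul_cancel]
        rfl

/-- The admissible systems of levels. -/
structure LevQ (C r p n m n1 n2 j d N' K' : ℕ) : Prop where
  h0 : 0 < d
  h1 : n2 = n1 + C + 2 * j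
  h2 : n2 ≤ n
  h3 : n1 ≤ m
  h4 : m ≤ n
  h5 : (r + 1) * (n - n1) + 2 ≤ n1
  h6 : ¬ p ∣ N'
  h7 : K' ∣ N'
  h8 : 4 * Real.log (d * (p : ℝ) ^ ((r + 1) * (n - n1))) + 1 ≤ 2 * ((p : ℝ) ^ j - 1) * Real.log p

/-! ## A. Analysis and local algebra -/

open Classical in
/-- VDM: the Vandermonde determinant of complex numbers. -/
def T_VDM : Prop := ∀ X : Finset ℂ, ∏ x ∈ X, ∏ y ∈ X.erase x, ‖x - y‖ ≤
  ((X.card : ℝ) ^ (2 * X.card)) * ∏ x ∈ X, (max ‖x‖ 1) ^ (2 * (X.card - 1))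

open Classical in
/-- PFX: the product formula for the discriminant of a finite set. -/
def T_PFX : Prop := ∀ (M : Type) [Field M] [NumberField M] (p : ℕ), p.Prime →
  ∃ P : Finset (FinitePlace M), (∀ v, v ∈ P ↔ v.1 (p : M) < 1) ∧
    ∑ v ∈ P, (- Real.log (v.1 (p : M))) = Module.finrank ℚ M * Real.log p ∧
    ∀ (X : Finset M) (G : FinitePlace M → ℝ),
      (∀ v ∈ P, ∏ x ∈ X, ∏ y ∈ X.erase x, dch v.1 x y ≤ v.1 (p : M) ^ (G v)) →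
      ∑ v ∈ P, (- Real.log (v.1 (p : M))) * G v ≤
        Module.finrank ℚ M * (2 * X.card * Real.log X.card) + 2 * X.card * ∑ x ∈ X, logHeight₁ x

/-- PRX: the roots of two monic polynomials which are close coefficient by coefficient. -/
def T_PRX : Prop := ∀ (M : Type) [Field M] (w : AbsoluteValue M ℝ), IsNonarchimedean w →
  ∀ (ε : ℝ), 0 < ε → ε < 1 → ∀ s s' : Finset M,
  (∀ k : ℕ, w ((∏ y ∈ s', (X - C y)).coeff k - (∏ x ∈ s, (X - C x)).coeff k) ≤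
    ε * w ((∏ x ∈ s, (X - C x)).coeff k)) →
  ∀ g : M, ∀ x ∈ s, ∏ y ∈ s', dch w (x * g) (y * g) ≤ ε

/-- PRF: the roots of a polynomial and of its image under a Frobenius substitution. -/
def T_PRF : Prop := ∀ (E M : Type) [Field E] [Field M] [Algebra E M] (w : AbsoluteValue M ℝ),
  IsNonarchimedean w → ∀ (p c : ℕ), p.Prime → ∀ ε : ℝ, 0 < ε → ε < 1 → w (p : M) ≤ ε →
  ∀ φ : E ≃+* E, (∀ x : E, w (algebraMap E M (φ x)) = w (algebraMap E M x)) →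
  (∀ x : E, w (algebraMap E M x) ≤ 1 → w (algebraMap E M (φ x - x ^ (p ^ c))) ≤ ε) →
  ∀ (f : E[X]) (s s' : Finset M), f.map (algebraMap E M) = ∏ x ∈ s, (X - C x) →
  (f.map (φ : E →+* E)).map (algebraMap E M) = ∏ y ∈ s', (X - C y) →
  ∀ x ∈ s, ∏ y ∈ s', dch w (x ^ (p ^ c)) y ≤ ε

/-- POWQ: `p`-th powers bring elements together. -/
def T_POWQ : Prop := ∀ (M : Type) [Field M] [CharZero M] (v : AbsoluteValue M ℝ),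
  IsNonarchimedean v → ∀ p : ℕ, p.Prime → v (p : M) < 1 → ∀ (δ : ℝ) (k e : ℕ), 0 < δ →
  1 ≤ (p : ℝ) ^ k * δ → ∀ (x : M) (s : Finset M), ∏ y ∈ s, dch v x y ≤ v (p : M) ^ δ →
  ∏ y ∈ s, dch v (x ^ (p ^ (k + e))) (y ^ (p ^ (k + e))) ≤ v (p : M) ^ (e + 1)

open Classical in
/-- ORB: the contributions of a family of blocks. -/
def T_ORB : Prop := ∀ (G : Type) [Group G] [Finite G] (V B W : Subgroup G), B ≤ V → W ≤ V →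
  (∀ s ∈ V, ∀ t ∈ V, s * t = t * s) → ∀ (M : Type) (κ : M → M → ℝ) (c : ℝ), 0 < c → c ≤ 1 →
  (∀ x y, 0 ≤ κ x y ∧ κ x y ≤ 1) → ∀ Y : G → Finset M,
  (∀ s ∈ V, ∀ t ∈ V, s⁻¹ * t ∈ B → Y s = Y t) →
  (∀ s ∈ V, ∀ t ∈ V, s⁻¹ * t ∉ B → Disjoint (Y s) (Y t)) →
  (∀ t ∈ V, ∀ w ∈ W, w ∉ B → ∀ x ∈ Y t, ∏ y ∈ Y (w * t), κ x y ≤ c) →
  ∀ X : Finset M, (∀ x, x ∈ X ↔ ∃ t ∈ V, x ∈ Y t) →
  ∏ x ∈ X, ∏ y ∈ X.erase x, κ x y ≤ c ^ ((X.card : ℝ) * ((B.relIndex W : ℝ) - 1))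

/-! ## B. The wild groups and the key statement -/

/-- VAB: `V` is commutative. -/
def T_VAB : Prop := ∀ (F M : Type) [Field F] [Field M] [Algebra F M]
  [FiniteDimensional F M] (p : ℕ), p.Prime → ∀ (r : ℕ) (γ : Fin r → F),
  (∀ i, γ i ≠ 0) → ∀ n m n1 N' K' : ℕ, n1 ≤ m → m ≤ n → n ≤ 2 * n1 → ¬ p ∣ N' → K' ∣ N' →
  IntermediateField.adjoin F
    {z : M | z ^ (p ^ n * N') = 1 ∨ ∃ i, z ^ (p ^ m * K') = algebraMap F M (γ i)} = ⊤ →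
  ∀ s ∈ VV F M γ p n1 K', ∀ t ∈ VV F M γ p n1 K', s * t = t * s

/-- WG: the wild groups. -/
def T_WG : Prop := ∀ (F : Type) [Field F] [NumberField F] (p : ℕ), p.Prime → ∀ (r : ℕ)
  (γ : Fin r → F), (∀ i, γ i ≠ 0) → ∃ C : ℕ,
  ∀ (M : Type) [Field M] [NumberField M] [Algebra F M] [FiniteDimensional F M] [IsGalois F M]
  (n1 n2 j K' T : ℕ), ¬ p ∣ K' → n2 = n1 + C + 2 * j → 1 ≤ n1 → 1 ≤ T →
  2 * T ≤ p ^ (n1 - 1) * (p - 1) → Nat.card (VV F M γ p n1 K') ≤ T →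
  (∃ ζ : M, IsPrimitiveRoot ζ (p ^ n2)) → (∀ i, ∃ θ : M, θ ^ (p ^ n1) = algebraMap F M (γ i)) →
  (∀ i, ∃ θ : M, θ ^ K' = algebraMap F M (γ i)) →
  ∀ v : FinitePlace M, v.1 (p : M) < 1 → ∃ W ≤ VV F M γ p n1 K',
    (∀ t ∈ W, ∀ x : M, x ≠ 0 → v.1 (t x / x - 1) ≤ v.1 (p : M) ^ (1 / ((2 * T : ℕ) : ℝ))) ∧
    p ^ (2 * j) ≤ (UU F M (p ^ n2)).relIndex W

/-- KEB: the determinant of one element. -/
def T_KEB : Prop := ∀ (F E M : Type) [Field F] [NumberField F] [Field E] [NumberField E] [Field M]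
  [NumberField M] [Algebra F E] [Algebra F M] [Algebra E M] [IsScalarTower F E M]
  [FiniteDimensional F E] [FiniteDimensional F M] [IsGalois F E] [IsGalois F M] (p : ℕ), p.Prime →
  ∀ (V : Subgroup (E ≃ₐ[F] E)) (T d k : ℕ), 0 < T → 0 < d → Nat.card V ≤ T →
  (∀ s ∈ V, ∀ t ∈ V, s * t = t * s) → 2 * T ≤ p ^ k → ∀ b g : M, b ≠ 0 → g ≠ 0 →
  (∃ s : Finset M, s.card ≤ d ∧ ∀ σ : M ≃ₐ[F] M,
    (∀ y : E, σ (algebraMap E M y) = algebraMap E M y) → σ b ∈ s) →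
  (∀ σ : M ≃ₐ[F] M, (∀ y : E, σ (algebraMap E M y) = algebraMap E M y) →
    (σ b) ^ (p ^ k) = b ^ (p ^ k) → σ b = b) →
  ∀ H : ℝ, (∀ σ : M ≃ₐ[F] M, logHeight₁ (σ b * g) ≤ H) →
  ∃ B ≤ V, (∀ w ∈ B, ∃ σ : M ≃ₐ[F] M, (∀ y : E, σ (algebraMap E M y) = algebraMap E M (w y)) ∧
      (σ b) ^ (p ^ k) = b ^ (p ^ k)) ∧
    ∀ P : Finset (FinitePlace M), (∀ v, v ∈ P ↔ v.1 (p : M) < 1) →
    ∀ W : FinitePlace M → Subgroup (E ≃ₐ[F] E), (∀ v ∈ P, W v ≤ V ∧ ∀ t ∈ W v, ∀ x : E, x ≠ 0 →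
      v.1 (algebraMap E M (t x / x - 1)) ≤ v.1 (p : M) ^ (1 / ((2 * T : ℕ) : ℝ))) →
    ∑ v ∈ P, (- Real.log (v.1 (p : M))) * ((B.relIndex (W v) : ℝ) - 1) ≤
      Module.finrank ℚ M * (2 * Real.log (d * T)) + 2 * (d * T * p ^ k) * H

/-- KEA: the two determinants. -/
def T_KEA : Prop := ∀ (F E M : Type) [Field F] [NumberField F] [Field E] [NumberField E] [Field M]
  [NumberField M] [Algebra F E] [Algebra F M] [Algebra E M] [IsScalarTower F E M]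
  [FiniteDimensional F E] [FiniteDimensional F M] [IsGalois F E] [IsGalois F M] (p : ℕ), p.Prime →
  ∀ (V U : Subgroup (E ≃ₐ[F] E)) (T d j k : ℕ), 0 < T → 0 < d → Nat.card V ≤ T →
  (∀ s ∈ V, ∀ t ∈ V, s * t = t * s) →
  (∀ v : FinitePlace E, v.1 (p : E) < 1 → ∃ W ≤ V, (∀ t ∈ W, ∀ x : E, x ≠ 0 →
    v.1 (t x / x - 1) ≤ v.1 (p : E) ^ (1 / ((2 * T : ℕ) : ℝ))) ∧ p ^ (2 * j) ≤ U.relIndex W) →
  2 * T ≤ p ^ k → 4 * Real.log (d * T) + 1 ≤ 2 * ((p : ℝ) ^ j - 1) * Real.log p →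
  ∀ b g : M, b ≠ 0 → g ≠ 0 →
  (∃ s : Finset M, s.card ≤ d ∧ ∀ σ : M ≃ₐ[F] M,
    (∀ y : E, σ (algebraMap E M y) = algebraMap E M y) → σ b ∈ s) →
  (∀ σ : M ≃ₐ[F] M, (∀ y : E, σ (algebraMap E M y) = algebraMap E M y) →
    (σ b) ^ (p ^ k) = b ^ (p ^ k) → σ b = b) →
  ∀ H : ℝ, (∀ σ : M ≃ₐ[F] M, logHeight₁ (σ b * g) ≤ H) →
  4 * (d * T * p ^ k) * H < Module.finrank ℚ M → ∀ κ : M ≃ₐ[F] M, ∃ t ∈ V, t ∉ U ∧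
    (∃ σ : M ≃ₐ[F] M, (∀ y : E, σ (algebraMap E M y) = algebraMap E M (t y)) ∧
      (σ b) ^ (p ^ k) = b ^ (p ^ k)) ∧
    ∃ σ : M ≃ₐ[F] M, (∀ y : E, σ (algebraMap E M y) = algebraMap E M (t y)) ∧
      (σ (κ b)) ^ (p ^ k) = (κ b) ^ (p ^ k)

/-- KEYQ: the key statement. -/
def T_KEYQ : Prop := ∀ (F Ω : Type) [Field F] [NumberField F] [Field Ω] [CharZero Ω] [Algebra F Ω]
  [IsAlgClosed Ω] [Algebra.IsAlgebraic F Ω] (p : ℕ), p.Prime → ∀ (r : ℕ) (γ : Fin r → F),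
  (∀ i, γ i ≠ 0) → ∃ C : ℕ, ∀ n m n1 n2 j d N' K' : ℕ, LevQ C r p n m n1 n2 j d N' K' →
  ∀ β : Ω, β ≠ 0 → Cj F Ω (Lv F Ω γ (p ^ n * N') (p ^ m * K')) d β →
  Red F Ω (Lv F Ω γ (p ^ n * N') (p ^ m * K')) β → ∀ g : Ω, g ≠ 0 →
  (∃ (i : ℕ) (a : F), 0 < i ∧ g ^ i = algebraMap F Ω a) →
  4 * d * (p : ℝ) ^ (2 * ((r + 1) * (n - n1)) + 1) * absLogHeight₁ (β * g) < 1 →
  ∀ κ : Ω ≃ₐ[F] Ω,
  ∃ t : Lv F Ω γ (p ^ n * N') (p ^ m * K') ≃ₐ[F] Lv F Ω γ (p ^ n * N') (p ^ m * K'),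
    t ∈ VV F (Lv F Ω γ (p ^ n * N') (p ^ m * K')) γ p n1 K' ∧
    (∃ ξ : Lv F Ω γ (p ^ n * N') (p ^ m * K'), ξ ^ (p ^ n2) = 1 ∧ t ξ ≠ ξ) ∧
    (∃ τ : Ω ≃ₐ[F] Ω, (∀ y : Lv F Ω γ (p ^ n * N') (p ^ m * K'), τ (y : Ω) = (t y : Ω)) ∧
      (τ β) ^ (p ^ ((r + 1) * (n - n1) + 1)) = β ^ (p ^ ((r + 1) * (n - n1) + 1))) ∧
    ∃ τ : Ω ≃ₐ[F] Ω, (∀ y : Lv F Ω γ (p ^ n * N') (p ^ m * K'), τ (y : Ω) = (t y : Ω)) ∧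
      (τ (κ β)) ^ (p ^ ((r + 1) * (n - n1) + 1)) = (κ β) ^ (p ^ ((r + 1) * (n - n1) + 1))

/-! ## C. The descent -/

/-- STCQ: the cyclotomic step. -/
def T_STCQ : Prop := ∀ (F Ω : Type) [Field F] [NumberField F] [Field Ω] [CharZero Ω] [Algebra F Ω]
  [IsAlgClosed Ω] [Algebra.IsAlgebraic F Ω] (p : ℕ), p.Prime → ∀ (r : ℕ) (γ : Fin r → F),
  (∀ i, γ i ≠ 0) → ∃ C : ℕ, ∀ n m n1 j d N' K' : ℕ, 0 < d → n1 + C + 2 * j ≤ n → m ≤ n1 →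
  n1 < n → (r + 1) * (n - n1) + 2 ≤ n1 → ¬ p ∣ N' → K' ∣ N' →
  4 * Real.log (d * (p : ℝ) ^ ((r + 1) * (n - n1))) + 1 ≤ 2 * ((p : ℝ) ^ j - 1) * Real.log p →
  ∀ α : Ω, RepD F Ω γ (p ^ n * N') (p ^ m * K') d α →
  4 * d * (p : ℝ) ^ (2 * ((r + 1) * (n - n1)) + 1) * absLogHeight₁ α < 1 →
  RepD F Ω γ (p ^ (n - 1) * N') (p ^ m * K') d α

/-- SK1Q: powers of the elements of the Kummer group lift to automorphisms which multiply `β` by a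
root of unity. -/
def T_SK1Q : Prop := ∀ (F Ω : Type) [Field F] [NumberField F] [Field Ω] [CharZero Ω] [Algebra F Ω]
  [IsAlgClosed Ω] [Algebra.IsAlgebraic F Ω] (p : ℕ), p.Prime → ∀ (r : ℕ) (γ : Fin r → F),
  (∀ i, γ i ≠ 0) → ∃ C : ℕ, ∀ n m n1 n2 j d N' K' : ℕ, LevQ C r p n m n1 n2 j d N' K' →
  ∀ β : Ω, β ≠ 0 → Cj F Ω (Lv F Ω γ (p ^ n * N') (p ^ m * K')) d β →
  Red F Ω (Lv F Ω γ (p ^ n * N') (p ^ m * K')) β → ∀ g : Ω, g ≠ 0 →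
  (∃ (i : ℕ) (a : F), 0 < i ∧ g ^ i = algebraMap F Ω a) →
  4 * d * (p : ℝ) ^ (2 * ((r + 1) * (n - n1)) + 1) * absLogHeight₁ (β * g) < 1 →
  ∀ h ∈ AA F (Lv F Ω γ (p ^ n * N') (p ^ m * K')) γ (p ^ n * N') K',
    ∃ η : Ω ≃ₐ[F] Ω, (∀ y : Lv F Ω γ (p ^ n * N') (p ^ m * K'),
      η (y : Ω) = ((h ^ (p ^ (n2 - 1))) y : Ω)) ∧
      (η β) ^ (p ^ ((r + 1) * (n - n1) + 1)) = β ^ (p ^ ((r + 1) * (n - n1) + 1))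

/-- STKQ: the Kummer step. -/
def T_STKQ : Prop := ∀ (F Ω : Type) [Field F] [NumberField F] [Field Ω] [CharZero Ω] [Algebra F Ω]
  [IsAlgClosed Ω] [Algebra.IsAlgebraic F Ω] (p : ℕ), p.Prime → ∀ (r : ℕ) (γ : Fin r → F),
  MInd F γ → ∃ C : ℕ, ∀ n m n1 j d N' K' : ℕ, 0 < d → n1 + C + 2 * j ≤ m → m ≤ n →
  (r + 1) * (n - n1) + 2 ≤ n1 → ¬ p ∣ N' → K' ∣ N' →
  4 * Real.log (d * (p : ℝ) ^ ((r + 1) * (n - n1))) + 1 ≤ 2 * ((p : ℝ) ^ j - 1) * Real.log p →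
  ∀ α : Ω, RepD F Ω γ (p ^ n * N') (p ^ m * K') d α →
  4 * d * (p : ℝ) ^ (2 * ((r + 1) * (n - n1)) + 1) * absLogHeight₁ α < 1 →
  RepD F Ω γ (p ^ n * N') (p ^ (m - 1) * K') d α

/-- NUM: choice of the parameter `j`. -/
def T_NUM : Prop := ∀ p : ℕ, 2 ≤ p → ∀ (A : ℕ) (ε : ℝ), 0 < ε → ∃ c : ℝ, 0 < c ∧ ∀ d : ℕ, 0 < d →
  ∃ j : ℕ, 4 * Real.log (d * (p : ℝ) ^ (A * (j + 1))) + 1 ≤ 2 * ((p : ℝ) ^ j - 1) * Real.log p ∧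
    c * (p : ℝ) ^ (A * (j + 1)) ≤ (d : ℝ) ^ ε

/-- DPQ: the descent at one prime. -/
def T_DPQ : Prop := ∀ (F Ω : Type) [Field F] [NumberField F] [Field Ω] [CharZero Ω] [Algebra F Ω]
  [IsAlgClosed Ω] [Algebra.IsAlgebraic F Ω] (p : ℕ), p.Prime → ∀ (r : ℕ) (γ : Fin r → F),
  MInd F γ → ∀ ε : ℝ, 0 < ε → ∃ c : ℝ, 0 < c ∧ ∀ d : ℕ, 0 < d → ∃ k : ℕ,
  c * (p : ℝ) ^ k ≤ (d : ℝ) ^ ε ∧ ∀ n m N' K' : ℕ, m ≤ n → ¬ p ∣ N' → K' ∣ N' → ∀ α : Ω,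
  RepD F Ω γ (p ^ n * N') (p ^ m * K') d α → absLogHeight₁ α < c / (d : ℝ) ^ (1 + ε) →
  RepD F Ω γ (p ^ k * N') (p ^ k * K') d α

/-- DSQ: the descent at finitely many primes. -/
def T_DSQ : Prop := ∀ (F Ω : Type) [Field F] [NumberField F] [Field Ω] [CharZero Ω] [Algebra F Ω]
  [IsAlgClosed Ω] [Algebra.IsAlgebraic F Ω] (r : ℕ) (γ : Fin r → F), MInd F γ →
  ∀ S : Finset ℕ, (∀ p ∈ S, p.Prime) → ∀ ε : ℝ, 0 < ε → ∃ c : ℝ, 0 < c ∧ ∀ d : ℕ, 0 < d →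
  ∃ N0 : ℕ, 0 < N0 ∧ c * (N0 : ℝ) ≤ (d : ℝ) ^ ε ∧
  ∀ N K : ℕ, 0 < N → K ∣ N → (∀ p : ℕ, p.Prime → p ∣ K → p ∈ S) → ∀ α : Ω,
  RepD F Ω γ N K d α → absLogHeight₁ α < c / (d : ℝ) ^ (1 + ε) →
  ∃ N' : ℕ, 0 < N' ∧ RepD F Ω γ (N0 * N') N0 d α

/-! ## D. The bottom -/

/-- REDQ: a power of a number is reduced, with as few conjugates as possible. -/
def T_REDQ : Prop := ∀ (F Ω : Type) [Field F] [NumberField F] [Field Ω] [CharZero Ω] [Algebra F Ω]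
  [IsAlgClosed Ω] [Algebra.IsAlgebraic F Ω] (r : ℕ) (γ : Fin r → F), (∀ i, γ i ≠ 0) →
  ∀ N K d : ℕ, 0 < N → K ∣ N → 0 < d → ∀ β : Ω, β ≠ 0 → Cj F Ω (Lv F Ω γ N K) d β →
  ∃ N₁ a d₁ : ℕ, 0 < N₁ ∧ K ∣ N₁ ∧ 0 < a ∧ 0 < d₁ ∧ a * d₁ ≤ d ∧
    Cj F Ω (Lv F Ω γ N₁ K) d₁ (β ^ a) ∧ Red F Ω (Lv F Ω γ N₁ K) (β ^ a)

/-- FRO: the Frobenius substitution at `p` in cyclotomic fields. -/
def T_FRO : Prop := ∀ (E : Type) [Field E] [NumberField E] (p v N' : ℕ), p.Prime → ¬ p ∣ N' →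
  ∀ ζ : E, IsPrimitiveRoot ζ (p ^ v * N') → IntermediateField.adjoin ℚ {ζ} = ⊤ →
  ∃ φ : E ≃ₐ[ℚ] E, ∀ w : FinitePlace E, w.1 (p : E) < 1 → (∀ x : E, w.1 (φ x) = w.1 x) ∧
    ∀ x : E, w.1 x ≤ 1 → w.1 (φ x - x ^ p) ≤ w.1 (p : E) ^ (1 / ((p ^ v : ℕ) : ℝ))

/-- FRX: the determinant of the Frobenius images of the powers. -/
def T_FRX : Prop := ∀ (E M : Type) [Field E] [NumberField E] [Field M] [NumberField M] [Algebra E M]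
  [IsGalois ℚ E] [IsGalois ℚ M] (p v : ℕ), p.Prime → ∀ φ : E ≃ₐ[ℚ] E,
  (∀ w : FinitePlace E, w.1 (p : E) < 1 → (∀ x : E, w.1 (φ x) = w.1 x) ∧
    ∀ x : E, w.1 x ≤ 1 → w.1 (φ x - x ^ p) ≤ w.1 (p : E) ^ (1 / ((p ^ v : ℕ) : ℝ))) →
  ∀ (d : ℕ) (β : M), 0 < d → β ≠ 0 → (∀ n : ℕ, 0 < n → β ^ n ≠ 1) →
  (∃ s : Finset M, s.card ≤ d ∧ ∀ σ : M ≃ₐ[ℚ] M,
    (∀ y : E, σ (algebraMap E M y) = algebraMap E M y) → σ β ∈ s) →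
  (∀ σ : M ≃ₐ[ℚ] M, (∀ y : E, σ (algebraMap E M y) = algebraMap E M y) → ∀ k : ℕ,
    (σ β) ^ (p ^ k) = β ^ (p ^ k) → σ β = β) → ∀ s : ℕ, 1 ≤ s →
  Real.log p * ((s : ℝ) ^ 2 - 1) / 3 ≤
    2 * Real.log (s * d) + 2 * d * (p : ℝ) ^ (v + s) * (logHeight₁ β / Module.finrank ℚ M)

/-- NU2: choice of the parameter `s`. -/
def T_NU2 : Prop := ∀ p : ℕ, 2 ≤ p → ∀ ε : ℝ, 0 < ε → ∃ c : ℝ, 0 < c ∧ ∀ d : ℕ, 0 < d →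
  ∃ s : ℕ, 1 ≤ s ∧ 2 * Real.log (s * d) + 1 ≤ Real.log p * ((s : ℝ) ^ 2 - 1) / 3 ∧
    c * (p : ℝ) ^ s ≤ (d : ℝ) ^ ε

/-- FRQ: heights of reduced numbers over cyclotomic fields. -/
def T_FRQ : Prop := ∀ (Ω : Type) [Field Ω] [CharZero Ω] [IsAlgClosed Ω] [Algebra.IsAlgebraic ℚ Ω]
  (p : ℕ), p.Prime → ∀ ε : ℝ, 0 < ε → ∃ c : ℝ, 0 < c ∧ ∀ v N' d : ℕ, ¬ p ∣ N' → 0 < d →
  ∀ β : Ω, β ≠ 0 → (∀ n : ℕ, 0 < n → β ^ n ≠ 1) →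
  Cj ℚ Ω (IntermediateField.adjoin ℚ {z : Ω | z ^ (p ^ v * N') = 1}) d β →
  Red ℚ Ω (IntermediateField.adjoin ℚ {z : Ω | z ^ (p ^ v * N') = 1}) β →
  c ≤ absLogHeight₁ β * ((d : ℝ) ^ (1 + ε) * (p : ℝ) ^ v)

/-- RDQ: the relative Dobrowolski bound over the cyclotomic field. -/
def T_RDQ : Prop := ∀ (Ω : Type) [Field Ω] [CharZero Ω] [IsAlgClosed Ω] [Algebra.IsAlgebraic ℚ Ω],
  ∀ ε : ℝ, 0 < ε → ∃ c : ℝ, 0 < c ∧ ∀ N d : ℕ, 0 < N → 0 < d → ∀ β : Ω, β ≠ 0 →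
  (∀ n : ℕ, 0 < n → β ^ n ≠ 1) →
  Cj ℚ Ω (IntermediateField.adjoin ℚ {z : Ω | z ^ N = 1}) d β →
  c ≤ absLogHeight₁ β * (d : ℝ) ^ (1 + ε)

/-- CDG: the number of conjugates over a cyclotomic field. -/
def T_CDG : Prop := ∀ (F Ω : Type) [Field F] [NumberField F] [Field Ω] [CharZero Ω] [Algebra F Ω]
  [IsAlgClosed Ω] [Algebra.IsAlgebraic F Ω] (r : ℕ) (γ : Fin r → F), (∀ i, γ i ≠ 0) →
  ∀ N K d : ℕ, 0 < N → K ∣ N → ∀ β : Ω, Cj F Ω (Lv F Ω γ N K) d β →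
  Cj ℚ Ω (IntermediateField.adjoin ℚ {z : Ω | z ^ N = 1}) (Module.finrank ℚ F * K ^ r * d) β

/-- FINQ: the last step. -/
def T_FINQ : Prop := ∀ (F Ω : Type) [Field F] [NumberField F] [Field Ω] [CharZero Ω] [Algebra F Ω]
  [IsAlgClosed Ω] [Algebra.IsAlgebraic F Ω] (r : ℕ) (γ : Fin r → F), MInd F γ →
  ∀ ε : ℝ, 0 < ε → ∃ c : ℝ, 0 < c ∧ ∀ N K d : ℕ, 0 < N → K ∣ N → 0 < d → ∀ α : Ω,
  RepD F Ω γ N K d α → α ∉ Dv F Ω γ →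
  c ≤ absLogHeight₁ α * ((K : ℝ) ^ r * d) ^ ((1 + ε) * ((r : ℝ) + 1))

/-- MBQ: the theorem for independent generators. -/
def T_MBQ : Prop := ∀ (F Ω : Type) [Field F] [NumberField F] [Field Ω] [CharZero Ω] [Algebra F Ω]
  [IsAlgClosed Ω] [Algebra.IsAlgebraic F Ω] (r : ℕ) (γ : Fin r → F), MInd F γ →
  ∀ S : Finset ℕ, (∀ p ∈ S, p.Prime) → ∀ ε : ℝ, 0 < ε → ∃ c : ℝ, 0 < c ∧
  ∀ N K d : ℕ, 0 < N → K ∣ N → (∀ p : ℕ, p.Prime → p ∣ K → p ∈ S) → 0 < d → ∀ β g : Ω, β ≠ 0 →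
  Cj F Ω (Lv F Ω γ N K) d β → g ∈ Dv F Ω γ → β * g ∉ Dv F Ω γ →
  c ≤ absLogHeight₁ (β * g) * (d : ℝ) ^ ((r : ℝ) + 1 + ε)

/-- RNK: the rank. -/
def T_RNK : Prop := ∀ (Γ : Subgroup (AlgebraicClosure ℚ)ˣ) (r : ℕ)
  (g : Fin r → (AlgebraicClosure ℚ)ˣ), Γ.FG → (∀ i, g i ∈ Γ) →
  (∀ x : Fin r → ℤ, ∏ i, g i ^ x i = 1 → x = 0) →
  (∀ a ∈ Γ, ∃ (x : Fin r → ℤ) (ξ : (AlgebraicClosure ℚ)ˣ) (j : ℕ), 0 < j ∧ ξ ^ j = 1 ∧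
    a = ξ * ∏ i, g i ^ x i) → Module.finrank ℤ (Additive Γ) = r

/-- MAINQ: the result. -/
def T_MAINQ : Prop := ∀ (Γ : Subgroup (AlgebraicClosure ℚ)ˣ), Γ.FG → ∀ (S : Finset ℕ) (ε : ℝ),
  0 < ε → ∃ c : ℝ, 0 < c ∧ ∀ L : IntermediateField ℚ (AlgebraicClosure ℚ),
  L = IntermediateField.adjoin ℚ
      ({z : AlgebraicClosure ℚ | ∃ n : ℕ, 0 < n ∧ z ^ n = 1} ∪
        {z | ∃ n : ℕ, 0 < n ∧ (∀ p : ℕ, p.Prime → p ∣ n → p ∈ S) ∧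
          ∃ g ∈ Γ, z ^ n = (g : AlgebraicClosure ℚ)}) →
  ∀ β γ : AlgebraicClosure ℚ, (∃ n : ℕ, 0 < n ∧ ∃ g ∈ Γ, γ ^ n = (g : AlgebraicClosure ℚ)) →
  β * γ ≠ 0 → (¬ ∃ n : ℕ, 0 < n ∧ ∃ g ∈ Γ, (β * γ) ^ n = (g : AlgebraicClosure ℚ)) →
  c ≤ absLogHeight₁ (β * γ) * (Module.finrank L (IntermediateField.adjoin L {β}) : ℝ) ^
    ((Module.finrank ℤ (Additive Γ) : ℝ) + 1 + ε)

end Pool.Agent.H29.RQ
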