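import Pool.Agent.H23.RDD.All
import Pool.Agent.H29.RQ.Targets
import Pool.Agent.H34.RQ.VDM
import Pool.Agent.H34.RQ.VAB
import Pool.Agent.H72.RQ.PFX
import Pool.Agent.H29.RQ.PRX
import Pool.Agent.H29.RQ.PRF
import Pool.Agent.H29.RQ.REDQ
import Pool.Agent.H86.RQ.POWQ
import Pool.Agent.H86.RQ.ORB
import Pool.Agent.H7.RQ.KEB
import Pool.Agent.H74.RQ.KEA
import Pool.Agent.H4.RQ.WG
import Pool.Agent.H23.RQ.KEYQ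
import Pool.Agent.H63.RQ.DPQ
import Pool.Agent.H63.RQ.DSQ
import Pool.Agent.H63.RQ.NUM
import Pool.Agent.H63.RQ.MBQ
import Pool.Agent.H63.RQ.MAINQ
import Pool.Agent.H8.RQ.SK1Q
import Pool.Agent.H8.RQ.STCQ
import Pool.Agent.H8.RQ.CDG
import Pool.Agent.H23.RQ.FINQ
import Pool.Agent.H23.RQ.FRQ
import Pool.Agent.H23.RQ.RDQ
import Pool.Agent.H95.RQ.FRO
import Pool.Agent.H95.RQ.FRX
import Pool.Agent.H30.RQ.NU2
import Pool.Agent.H30.RQ.RNK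

set_option autoImplicit false

/-!
# MP_c65535_nt, dependence on the degree: assembly
-/

namespace Pool.Agent.H29.RQ

open Pool.Agent.H24.RD Pool.Agent.H23.RDD

theorem aVDM : T_VDM := Pool.Agent.H34.RQ.pf_VDM
theorem aPFX : T_PFX := Pool.Agent.H72.RQ.pf_PFX aVDM
theorem aPRX : T_PRX := pf_PRX
theorem aPRF : T_PRF := pf_PRF
theorem aPOWQ : T_POWQ := Pool.Agent.H86.RQ.pf_POWQ
theorem aORB : T_ORB := Pool.Agent.H86.RQ.pf_ORB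
theorem aVAB : T_VAB := Pool.Agent.H34.RQ.pf_VAB
theorem aWG : T_WG := Pool.Agent.H4.RQ.pf_WG aVB aCO aGEN aLI aWT
theorem aKEB : T_KEB := Pool.Agent.H7.RQ.pf_KEB aHA aHB aVB aPFX aPRX aPOWQ aORB
theorem aKEA : T_KEA := Pool.Agent.H74.RQ.pf_KEA aRS aPFX aKEB
theorem aKEYQ : T_KEYQ := Pool.Agent.H23.RQ.pf_KEYQ aHA aHB aVC aLVB aVAB aWG aKEA
theorem aSTCQ : T_STCQ := Pool.Agent.H8.RQ.pf_STCQ aLVB aSTCC aKEYQ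
theorem aSK1Q : T_SK1Q := Pool.Agent.H8.RQ.pf_SK1Q aLVB aCM aKEYQ
theorem aSTKQ : T_STKQ := Pool.Agent.H8.RQ.pf_STKQ aSK1Q aTOP aSK2D
theorem aNUM : T_NUM := Pool.Agent.H63.RQ.pf_NUM
theorem aDPQ : T_DPQ := Pool.Agent.H63.RQ.pf_DPQ aMON aSTCQ aSTKQ aNUM
theorem aDSQ : T_DSQ := Pool.Agent.H63.RQ.pf_DSQ aDPQ
theorem aREDQ : T_REDQ := pf_REDQ aLVB aMON
theorem aFRO : T_FRO := Pool.Agent.H95.RQ.pf_FRO aVB
theorem aFRX : T_FRX := Pool.Agent.H95.RQ.pf_FRX aRS aHA aHB aVB aPFX aPRF aPOWQ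
theorem aNU2 : T_NU2 := Pool.Agent.H30.RQ.pf_NU2
theorem aFRQ : T_FRQ := Pool.Agent.H23.RQ.pf_FRQ aHA aFRO aFRX aNU2
theorem aRDQ : T_RDQ := Pool.Agent.H23.RQ.pf_RDQ aHB aREDQ aDPQ aFRQ
theorem aCDG : T_CDG := Pool.Agent.H8.RQ.pf_CDG
theorem aFINQ : T_FINQ := Pool.Agent.H23.RQ.pf_FINQ aHB aDIR aRDQ aCDG
theorem aMBQ : T_MBQ := Pool.Agent.H63.RQ.pf_MBQ aHB aREDQ aDSQ aFINQ
theorem aRNK : T_RNK := Pool.Agent.H30.RQ.pf_RNK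
theorem aMAINQ : T_MAINQ := Pool.Agent.H63.RQ.pf_MAINQ aHB aLVB aMBQ aBAS aCFS aRNK

end Pool.Agent.H29.RQ
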